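import Mathlib
import Pool.Agent.H855R2.SF.Strip

/-!
One-sided bounds for short integrals of `P(L)` on the critical line, for families of
functions with a conductor (helper388).
-/

open Complex Filter Topology Set

namespace Pool.Agent.H388GL

open H855R2.SF

variable {ι : Type*} {m : ℝ} {L : ι → ℂ → ℂ} {Q : ι → ℝ → ℝ}

/-- growth in the half plane `Re s ≥ 1/2` -/
theorem half_growth (H : AFam m L Q) : ∃ C : ℝ, 1 ≤ C ∧ ∀ i (s : ℂ), 1 / 2 ≤ s.re →
    ‖L i s‖ ≤ C * Q i s.im := by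
  obtain ⟨A, hA0, hA⟩ := apriori H
  obtain ⟨B, hB⟩ := H.right (1 / 4) (by norm_num)
  obtain ⟨C, hC0, hC⟩ := pl H (a := 1 / 2) (b := 5 / 4) (ea := 1) (eb := 1 / 4) (Ca := A)
    (Cb := |B|) (by norm_num) (by norm_num) le_rfl (by norm_num) (by norm_num) hA0 (abs_nonneg B)
  have hr : ∀ i (s : ℂ), 5 / 4 ≤ s.re → ‖L i s‖ ≤ |B| * Q i s.im ^ ((1:ℝ) / 4) := by
    intro i s hs
    refine (hB i s (by linarith)).trans ?_
    apply mul_le_mul_of_nonneg_right (le_abs_self B)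
    have := H.Q1 i s.im
    positivity
  refine ⟨C + |B| + 1, by linarith [abs_nonneg B], fun i s hs => ?_⟩
  have hQ := H.Q1 i s.im
  have hQ0 : 0 < Q i s.im := by linarith
  rcases le_total s.re (5 / 4) with h | h
  · have h1 := hC i (fun t => by rw [Real.rpow_one]; exact hA i t)
      (fun t => hr i ⟨5 / 4, t⟩ le_rfl) s hs h
    refine h1.trans ?_
    have h2 : Q i s.im ^ ((1:ℝ) + (1 / 4 - 1) / (5 / 4 - 1 / 2) * (s.re - 1 / 2)) ≤ Q i s.im := by
      calc _ ≤ Q i s.im ^ (1:ℝ) := by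
            apply Real.rpow_le_rpow_of_exponent_le hQ
            have : (1 / 4 - 1 : ℝ) / (5 / 4 - 1 / 2) = -1 := by norm_num
            rw [this]
            linarith
        _ = _ := Real.rpow_one _
    calc C * Q i s.im ^ ((1:ℝ) + (1 / 4 - 1) / (5 / 4 - 1 / 2) * (s.re - 1 / 2))
        ≤ C * Q i s.im := mul_le_mul_of_nonneg_left h2 hC0
      _ ≤ _ := by
        apply mul_le_mul_of_nonneg_right _ hQ0.le
        linarith [abs_nonneg B]
  · refine (hr i s h).trans ?_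
    have h2 : Q i s.im ^ ((1:ℝ) / 4) ≤ Q i s.im := by
      calc _ ≤ Q i s.im ^ (1:ℝ) := Real.rpow_le_rpow_of_exponent_le hQ (by norm_num)
        _ = _ := Real.rpow_one _
    calc |B| * Q i s.im ^ ((1:ℝ) / 4) ≤ |B| * Q i s.im :=
          mul_le_mul_of_nonneg_left h2 (abs_nonneg B)
      _ ≤ _ := by
        apply mul_le_mul_of_nonneg_right _ hQ0.le
        linarith

/-! ### Polynomials -/

theorem poly_upper (P : Polynomial ℂ) (n : ℕ) (hn : P.natDegree ≤ n) : ∃ c : ℝ, 0 ≤ c ∧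
    ∀ z : ℂ, ‖P.eval z‖ ≤ c * (1 + ‖z‖) ^ n := by
  refine ⟨∑ j ∈ Finset.range (P.natDegree + 1), ‖P.coeff j‖, by positivity, fun z => ?_⟩
  rw [Polynomial.eval_eq_sum_range, Finset.sum_mul]
  refine (norm_sum_le _ _).trans (Finset.sum_le_sum fun j hj => ?_)
  rw [norm_mul, norm_pow]
  apply mul_le_mul_of_nonneg_left _ (norm_nonneg _)
  have hz := norm_nonneg z
  calc ‖z‖ ^ j ≤ (1 + ‖z‖) ^ j := pow_le_pow_left₀ hz (by linarith) j
    _ ≤ (1 + ‖z‖) ^ n := pow_le_pow_right₀ (by linarith) (by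
        have := Finset.mem_range.1 hj
        omega)

theorem poly_lower (P : Polynomial ℂ) (hP : 0 < P.natDegree) : ∃ c : ℝ, 0 < c ∧
    ∀ z : ℂ, ‖z‖ ^ P.natDegree ≤ c * (1 + ‖P.eval z‖) := by
  set k := P.natDegree with hk
  obtain ⟨c, hc0, hc⟩ := poly_upper P.eraseLead (k - 1) (Polynomial.eraseLead_natDegree_le P)
  have hlc : P.leadingCoeff ≠ 0 := by
    rw [Polynomial.leadingCoeff_ne_zero]
    intro h
    rw [hk, h] at hP
    simp at hP
  set a : ℝ := ‖P.leadingCoeff‖ with ha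
  have ha0 : 0 < a := norm_pos_iff.2 hlc
  set R : ℝ := 1 + 2 * c * 2 ^ (k - 1) / a with hR
  have hR1 : 1 ≤ R := by
    rw [hR]
    have : 0 ≤ 2 * c * 2 ^ (k - 1) / a := by positivity
    linarith
  have hdec : ∀ z : ℂ, a * ‖z‖ ^ k ≤ ‖P.eval z‖ + c * (1 + ‖z‖) ^ (k - 1) := by
    intro z
    have h1 : P.eval z = P.eraseLead.eval z + P.leadingCoeff * z ^ k := by
      have h0 := congrArg (Polynomial.eval z) P.eraseLead_add_C_mul_X_pow
      rw [Polynomial.eval_add, Polynomial.eval_mul, Polynomial.eval_C, Polynomial.eval_pow,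
        Polynomial.eval_X] at h0
      exact h0.symm
    have h2 : P.leadingCoeff * z ^ k = P.eval z - P.eraseLead.eval z := by rw [h1]; ring
    calc a * ‖z‖ ^ k = ‖P.leadingCoeff * z ^ k‖ := by rw [norm_mul, norm_pow]
      _ = ‖P.eval z - P.eraseLead.eval z‖ := by rw [h2]
      _ ≤ ‖P.eval z‖ + ‖P.eraseLead.eval z‖ := norm_sub_le _ _
      _ ≤ _ := by linarith [hc z]
  refine ⟨2 / a + R ^ k, by positivity, fun z => ?_⟩
  have hz := norm_nonneg z
  have hPz := norm_nonneg (P.eval z)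
  have hRk : 0 < R ^ k := by positivity
  rcases le_total ‖z‖ R with h | h
  · calc ‖z‖ ^ k ≤ R ^ k := pow_le_pow_left₀ hz h k
      _ ≤ (2 / a + R ^ k) * (1 + ‖P.eval z‖) := by
        have : 0 ≤ 2 / a := by positivity
        nlinarith [mul_nonneg this hPz, mul_nonneg hRk.le hPz]
  · have h1 : c * (1 + ‖z‖) ^ (k - 1) ≤ a / 2 * ‖z‖ ^ k := by
      have h2 : (1 + ‖z‖) ^ (k - 1) ≤ 2 ^ (k - 1) * ‖z‖ ^ (k - 1) := by
        rw [← mul_pow]
        apply pow_le_pow_left₀ (by linarith)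
        linarith
      have h3 : 2 * c * 2 ^ (k - 1) ≤ a * ‖z‖ := by
        have h4 : 2 * c * 2 ^ (k - 1) / a ≤ ‖z‖ := by linarith
        rw [div_le_iff₀ ha0] at h4
        linarith
      have h5 : ‖z‖ ^ k = ‖z‖ ^ (k - 1) * ‖z‖ := by
        rw [← pow_succ]
        congr 1
        omega
      have h6 : 0 ≤ ‖z‖ ^ (k - 1) := by positivity
      calc c * (1 + ‖z‖) ^ (k - 1) ≤ c * (2 ^ (k - 1) * ‖z‖ ^ (k - 1)) :=
            mul_le_mul_of_nonneg_left h2 hc0
        _ = (2 * c * 2 ^ (k - 1)) * ‖z‖ ^ (k - 1) / 2 := by ring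
        _ ≤ (a * ‖z‖) * ‖z‖ ^ (k - 1) / 2 := by
          apply div_le_div_of_nonneg_right _ (by norm_num)
          exact mul_le_mul_of_nonneg_right h3 h6
        _ = _ := by rw [h5]; ring
    have h7 := hdec z
    have h8 : ‖z‖ ^ k ≤ 2 / a * ‖P.eval z‖ := by
      rw [div_mul_eq_mul_div, le_div_iff₀ ha0]
      linarith
    calc ‖z‖ ^ k ≤ 2 / a * ‖P.eval z‖ := h8
      _ ≤ _ := by
        have : 0 ≤ 2 / a := by positivity
        nlinarith [mul_nonneg hRk.le hPz]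

/-! ### The short integrals -/

/-- the difference of a primitive -/
noncomputable def wd (G : ℂ → ℂ) (T : ℝ) (s : ℂ) : ℂ := (G (s + T * I) - G s) / I

theorem wd_eq {f G : ℂ → ℂ} (hf : Continuous f) (hG : ∀ s, HasDerivAt G (f s) s) (T : ℝ) (s : ℂ) :
    ∫ v in (0:ℝ)..T, f (s + v * I) = wd G T s := by
  have h1 : ∀ v : ℝ, HasDerivAt (fun v : ℝ => G (s + v * I) / I) (f (s + v * I)) v := by
    intro v
    have h2 : HasDerivAt (fun z : ℂ => s + z * I) I (v : ℂ) := by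
      simpa using ((hasDerivAt_id (v : ℂ)).mul_const I).const_add s
    have h3 := ((hG (s + v * I)).comp (v : ℂ) h2).comp_ofReal
    have h4 := h3.div_const I
    have e : f (s + v * I) * I / I = f (s + v * I) := by field_simp
    rw [e] at h4
    exact h4
  rw [intervalIntegral.integral_eq_sub_of_hasDerivAt (fun v _ => h1 v)]
  · unfold wd
    simp [sub_div]
  · apply Continuous.intervalIntegrable
    fun_prop

theorem wd_deriv {f G : ℂ → ℂ} (hG : ∀ s, HasDerivAt G (f s) s) (T : ℝ) (s : ℂ) :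
    HasDerivAt (wd G T) ((f (s + T * I) - f s) / I) s := by
  have h2 : HasDerivAt (fun z : ℂ => z + T * I) 1 s := (hasDerivAt_id s).add_const _
  have h3 := (hG (s + T * I)).comp s h2
  rw [mul_one] at h3
  exact (h3.sub (hG s)).div_const I

/-- sizes of the short integrals -/
theorem wd_norm {f G : ℂ → ℂ} (hf : Continuous f) (hG : ∀ s, HasDerivAt G (f s) s) {T : ℝ}
    (hT0 : 0 ≤ T) (hT1 : T ≤ 1) {s : ℂ} {M : ℝ} (hM : 0 ≤ M)
    (h : ∀ v : ℝ, 0 ≤ v → v ≤ 1 → ‖f (s + v * I)‖ ≤ M) : ‖wd G T s‖ ≤ M := by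
  rw [← wd_eq hf hG]
  have h1 := intervalIntegral.norm_integral_le_of_norm_le_const (a := (0:ℝ)) (b := T)
    (f := fun v : ℝ => f (s + v * I)) (C := M) (by
      intro v hv
      rw [uIoc_of_le hT0] at hv
      exact h v hv.1.le (hv.2.trans hT1))
  rw [sub_zero, abs_of_nonneg hT0] at h1
  refine h1.trans ?_
  nlinarith

theorem Q_up (H : AFam m L Q) (i : ι) (t v : ℝ) (hv0 : 0 ≤ v) (hv1 : v ≤ 1) :
    Q i (t + v) ≤ 2 ^ m * Q i t := by
  refine (H.Qs i t v).trans ?_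
  apply mul_le_mul_of_nonneg_right _ (by linarith [H.Q1 i t])
  apply Real.rpow_le_rpow (by positivity) _ H.m0
  rw [abs_of_nonneg hv0]
  linarith

theorem Q_up' (H : AFam m L Q) (i : ι) (t u : ℝ) (hu : |u| ≤ 1) : Q i (t + u) ≤ 2 ^ m * Q i t := by
  refine (H.Qs i t u).trans ?_
  apply mul_le_mul_of_nonneg_right _ (by linarith [H.Q1 i t])
  apply Real.rpow_le_rpow (by positivity) _ H.m0
  linarith

/-- `(1+|u|)^N ≤ K cosh u` -/
theorem poly_cosh (N : ℝ) : ∃ K : ℝ, 1 ≤ K ∧ ∀ u : ℝ, (1 + |u|) ^ N ≤ K * Real.cosh u := by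
  set n : ℝ := max N 1 with hn
  have hn1 : 1 ≤ n := le_max_right _ _
  have hn0 : 0 < n := by linarith
  refine ⟨2 * n ^ n, ?_, fun u => ?_⟩
  · have : (1:ℝ) ≤ n ^ n := Real.one_le_rpow hn1 hn0.le
    linarith
  · have h1 : 1 + |u| ≤ n * Real.exp (|u| / n) := by
      have h2 := Real.add_one_le_exp (|u| / n)
      have h3 : n * (|u| / n + 1) ≤ n * Real.exp (|u| / n) := mul_le_mul_of_nonneg_left h2 hn0.le
      have h4 : n * (|u| / n + 1) = |u| + n := by field_simp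
      linarith
    have h5 : (1 + |u|) ^ N ≤ n ^ n * Real.exp |u| := by
      calc (1 + |u|) ^ N ≤ (1 + |u|) ^ n :=
            Real.rpow_le_rpow_of_exponent_le (by linarith [abs_nonneg u]) (le_max_left _ _)
        _ ≤ (n * Real.exp (|u| / n)) ^ n := Real.rpow_le_rpow (by positivity) h1 hn0.le
        _ = n ^ n * Real.exp |u| := by
          rw [Real.mul_rpow hn0.le (Real.exp_pos _).le, ← Real.exp_mul]
          congr 2
          field_simp
    have h6 : Real.exp |u| ≤ 2 * Real.cosh u := by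
      rw [← Real.cosh_abs, Real.cosh_eq]
      have := Real.exp_pos (-|u|)
      linarith
    have h7 : 0 ≤ n ^ n := by positivity
    nlinarith

end Pool.Agent.H388GL
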