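import Mathlib
import Pool.Agent.H388GL.Core

/-!
One-sided bounds for short integrals: propagation to the right of the critical line (helper388).
-/

open Complex Filter Topology Set

namespace Pool.Agent.H388GL

open H855R2.SF

variable {ι : Type*} {m : ℝ} {L : ι → ℂ → ℂ} {Q : ι → ℝ → ℝ}

theorem cos_re (z : ℂ) : (Complex.cos z).re = Real.cos z.re * Real.cosh z.im := by
  rw [Complex.cos_eq]
  rw [← Complex.ofReal_cos, ← Complex.ofReal_cosh, ← Complex.ofReal_sin, ← Complex.ofReal_sinh]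
  simp only [Complex.sub_re, Complex.mul_re, Complex.ofReal_re, Complex.ofReal_im, Complex.I_re,
    Complex.I_im, Complex.mul_im]
  ring

theorem cos_half {x : ℝ} (hx : |x| ≤ 3 / 8) : 1 / 2 ≤ Real.cos x := by
  have h1 := Real.one_sub_sq_div_two_le_cos (x := x)
  have h2 : x ^ 2 ≤ (3 / 8) ^ 2 := by
    rw [← sq_abs x]
    exact pow_le_pow_left₀ (abs_nonneg x) hx 2
  linarith

/-- the upper bound on the critical line holds to the right of it -/
theorem upper_half (H : AFam m L Q) {f G : ι → ℂ → ℂ} (hf : ∀ i, Continuous (f i))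
    (hG : ∀ i s, HasDerivAt (G i) (f i s) s) {K N b K2 B : ℝ} (hK : 0 ≤ K) (hN : 0 ≤ N)
    (hb : 0 ≤ b) (hK2 : 0 ≤ K2) (hB : 0 ≤ B)
    (hgr : ∀ i (s : ℂ), 1 / 2 ≤ s.re → ‖f i s‖ ≤ K * Q i s.im ^ N)
    (hr : ∀ i (s : ℂ), 5 / 4 ≤ s.re → ‖f i s‖ ≤ K2 * Q i s.im ^ b) (ω : ℂ)
    (hos : ∀ i (t T : ℝ), 0 ≤ T → T ≤ 1 → (ω * wd (G i) T ⟨1 / 2, t⟩).re ≤ B * Q i t ^ b) :
    ∃ C : ℝ, 0 < C ∧ ∀ i (s : ℂ) (T : ℝ), 0 ≤ T → T ≤ 1 → 1 / 2 ≤ s.re →
      (ω * wd (G i) T s).re ≤ C * Q i s.im ^ b := by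
  have hm := H.m0
  obtain ⟨K3, hK3, hK3'⟩ := poly_cosh (m * b)
  set W : ℝ := K2 * (2 ^ m) ^ b with hW
  have hW0 : 0 ≤ W := by positivity
  -- bounds for the short integrals
  have hshift : ∀ i (s : ℂ) (v : ℝ) (e : ℝ), 0 ≤ e → 0 ≤ v → v ≤ 1 →
      Q i (s + v * I).im ^ e ≤ (2 ^ m * Q i s.im) ^ e := by
    intro i s v e he hv0 hv1
    have e1 : (s + v * I).im = s.im + v := by simp
    rw [e1]
    apply Real.rpow_le_rpow _ (Q_up H i s.im v hv0 hv1) he
    linarith [H.Q1 i (s.im + v)]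
  have hwr : ∀ i (s : ℂ) (T : ℝ), 0 ≤ T → T ≤ 1 → 5 / 4 ≤ s.re →
      ‖wd (G i) T s‖ ≤ W * Q i s.im ^ b := by
    intro i s T hT0 hT1 hs
    have hQ := H.Q1 i s.im
    have h1 := wd_norm (hf i) (hG i) hT0 hT1 (s := s) (M := K2 * (2 ^ m * Q i s.im) ^ b)
      (by positivity) (by
        intro v hv0 hv1
        refine (hr i _ (by simpa using hs)).trans ?_
        exact mul_le_mul_of_nonneg_left (hshift i s v b hb hv0 hv1) hK2)
    refine h1.trans (le_of_eq ?_)
    rw [Real.mul_rpow (by positivity) (by linarith), hW]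
    ring
  have hwg : ∀ i (s : ℂ) (T : ℝ), 0 ≤ T → T ≤ 1 → 1 / 2 ≤ s.re →
      ‖wd (G i) T s‖ ≤ K * (2 ^ m * Q i s.im) ^ N := by
    intro i s T hT0 hT1 hs
    have hQ := H.Q1 i s.im
    exact wd_norm (hf i) (hG i) hT0 hT1 (s := s) (M := K * (2 ^ m * Q i s.im) ^ N)
      (by positivity) (by
        intro v hv0 hv1
        refine (hgr i _ (by simpa using hs)).trans ?_
        exact mul_le_mul_of_nonneg_left (hshift i s v N hN hv0 hv1) hK)
  set K0 : ℝ := 2 * (B + ‖ω‖ * W) * K3 with hK0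
  have hK00 : 0 ≤ K0 := by positivity
  refine ⟨K0 + ‖ω‖ * W + 1, by positivity, ?_⟩
  intro i s0 T hT0 hT1 hs0
  set t0 : ℝ := s0.im with ht0
  set Q0 : ℝ := Q i t0 with hQ0
  have hQ01 : 1 ≤ Q0 := H.Q1 i t0
  have hQ0p : 0 < Q0 := by linarith
  have hQb : 0 < Q0 ^ b := by positivity
  have hnn : 0 ≤ ‖ω‖ * W := by positivity
  have hle : ∀ s : ℂ, (ω * wd (G i) T s).re ≤ ‖ω‖ * ‖wd (G i) T s‖ := by
    intro s
    rw [← norm_mul]
    exact Complex.re_le_norm _
  rcases le_total s0.re (5 / 4) with hs | hs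
  swap
  · calc (ω * wd (G i) T s0).re ≤ ‖ω‖ * ‖wd (G i) T s0‖ := hle s0
      _ ≤ ‖ω‖ * (W * Q0 ^ b) := mul_le_mul_of_nonneg_left (hwr i s0 T hT0 hT1 hs) (norm_nonneg _)
      _ = (‖ω‖ * W) * Q0 ^ b := by ring
      _ ≤ _ := by
        apply mul_le_mul_of_nonneg_right _ hQb.le
        linarith
  -- the strip
  have hQt : ∀ t : ℝ, Q i t ≤ (1 + |t - t0|) ^ m * Q0 := by
    intro t
    have := H.Qs i t0 (t - t0)
    rwa [add_sub_cancel] at this
  set lam : ℝ := (Q0 ^ b)⁻¹ with hlam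
  have hlam0 : 0 < lam := by positivity
  set F : ℂ → ℂ := fun s => cexp ((lam : ℂ) * (ω * wd (G i) T s) -
    (K0 : ℂ) * Complex.cos (s - ((7 / 8 : ℝ) : ℂ) - t0 * I)) with hF
  have hFn : ∀ s : ℂ, ‖F s‖ = Real.exp (lam * (ω * wd (G i) T s).re -
      K0 * (Real.cos (s.re - 7 / 8) * Real.cosh (s.im - t0))) := by
    intro s
    simp only [hF]
    rw [norm_exp, Complex.sub_re, Complex.re_ofReal_mul, Complex.re_ofReal_mul, cos_re]
    congr 4
    · congr 1
      simp
    · congr 1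
      simp
  have hcos : ∀ s : ℂ, 1 / 2 ≤ s.re → s.re ≤ 5 / 4 → 1 / 2 ≤ Real.cos (s.re - 7 / 8) := by
    intro s h1 h2
    apply cos_half
    rw [abs_le]
    constructor <;> linarith
  have hQpow : ∀ t : ℝ, lam * Q i t ^ b ≤ K3 * Real.cosh (t - t0) := by
    intro t
    have h1 : Q i t ^ b ≤ (1 + |t - t0|) ^ (m * b) * Q0 ^ b := by
      calc Q i t ^ b ≤ ((1 + |t - t0|) ^ m * Q0) ^ b :=
            Real.rpow_le_rpow (by linarith [H.Q1 i t]) (hQt t) hb
        _ = _ := by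
          rw [Real.mul_rpow (by positivity) hQ0p.le, ← Real.rpow_mul (by positivity)]
    calc lam * Q i t ^ b ≤ lam * ((1 + |t - t0|) ^ (m * b) * Q0 ^ b) :=
          mul_le_mul_of_nonneg_left h1 hlam0.le
      _ = (1 + |t - t0|) ^ (m * b) := by rw [hlam]; field_simp
      _ ≤ _ := hK3' _
  have hbd : ∀ s : ℂ, 1 / 2 ≤ s.re → s.re ≤ 5 / 4 →
      (ω * wd (G i) T s).re ≤ (B + ‖ω‖ * W) * Q i s.im ^ b → ‖F s‖ ≤ 1 := by
    intro s h1 h2 h3
    rw [hFn, Real.exp_le_one_iff]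
    have hc := hcos s h1 h2
    have hch := Real.cosh_pos (s.im - t0)
    have h4 : lam * (ω * wd (G i) T s).re ≤ (B + ‖ω‖ * W) * (K3 * Real.cosh (s.im - t0)) := by
      calc lam * (ω * wd (G i) T s).re ≤ lam * ((B + ‖ω‖ * W) * Q i s.im ^ b) :=
            mul_le_mul_of_nonneg_left h3 hlam0.le
        _ = (B + ‖ω‖ * W) * (lam * Q i s.im ^ b) := by ring
        _ ≤ _ := mul_le_mul_of_nonneg_left (hQpow _) (by positivity)
    have h5 : (B + ‖ω‖ * W) * (K3 * Real.cosh (s.im - t0)) ≤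
        K0 * (Real.cos (s.re - 7 / 8) * Real.cosh (s.im - t0)) := by
      have h6 : 0 ≤ (B + ‖ω‖ * W) * K3 * Real.cosh (s.im - t0) := by positivity
      rw [hK0]
      nlinarith [mul_le_mul_of_nonneg_left hc h6]
    linarith
  have hfin : ‖F s0‖ ≤ 1 := by
    apply PhragmenLindelof.vertical_strip (a := 1 / 2) (b := 5 / 4) _ _ _ _ hs0 hs
    · apply Differentiable.diffContOnCl
      apply Differentiable.cexp
      have hwd : Differentiable ℂ (wd (G i) T) := fun s => (wd_deriv (hG i) T s).differentiableAt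
      apply Differentiable.sub
      · exact (hwd.const_mul ω).const_mul _
      · apply Differentiable.const_mul
        apply Differentiable.ccos
        fun_prop
    · set A0 : ℝ := lam * (‖ω‖ * (K * (2 ^ m * ((1 + |t0|) ^ m * Q0)) ^ N)) with hA0
      have hA00 : 0 ≤ A0 := by positivity
      set A : ℝ := max A0 (m * N) with hA
      have hA1 : A0 ≤ A := le_max_left _ _
      have hA2 : m * N ≤ A := le_max_right _ _
      apply order_isBigO (A := A) (K := 1) (by norm_num)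
      intro s g1 g2
      rw [hFn, one_mul]
      apply Real.exp_le_exp.2
      have hc := hcos s g1 g2
      have hch := Real.cosh_pos (s.im - t0)
      have h5 : 0 ≤ K0 * (Real.cos (s.re - 7 / 8) * Real.cosh (s.im - t0)) := by
        have : 0 ≤ Real.cos (s.re - 7 / 8) := by linarith
        positivity
      have h6 : Q i s.im ≤ ((1 + |t0|) ^ m * Q0) * (1 + |s.im|) ^ m := by
        refine (hQt s.im).trans ?_
        have h7 : 1 + |s.im - t0| ≤ (1 + |t0|) * (1 + |s.im|) := by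
          have := abs_sub s.im t0
          nlinarith [abs_nonneg s.im, abs_nonneg t0, mul_nonneg (abs_nonneg s.im) (abs_nonneg t0)]
        calc (1 + |s.im - t0|) ^ m * Q0 ≤ ((1 + |t0|) * (1 + |s.im|)) ^ m * Q0 := by
              apply mul_le_mul_of_nonneg_right _ hQ0p.le
              exact Real.rpow_le_rpow (by positivity) h7 hm
          _ = _ := by
            rw [Real.mul_rpow (by positivity) (by positivity)]
            ring
      have h8 : (2 ^ m * Q i s.im) ^ N ≤ (2 ^ m * ((1 + |t0|) ^ m * Q0)) ^ N * (1 + |s.im|) ^ (m * N) := by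
        calc (2 ^ m * Q i s.im) ^ N ≤ (2 ^ m * (((1 + |t0|) ^ m * Q0) * (1 + |s.im|) ^ m)) ^ N := by
              apply Real.rpow_le_rpow _ _ hN
              · have := H.Q1 i s.im
                positivity
              · exact mul_le_mul_of_nonneg_left h6 (by positivity)
          _ = ((2 ^ m * ((1 + |t0|) ^ m * Q0)) * (1 + |s.im|) ^ m) ^ N := by ring_nf
          _ = _ := by
            rw [Real.mul_rpow (by positivity) (by positivity), ← Real.rpow_mul (by positivity)]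
      have h9 : lam * (ω * wd (G i) T s).re ≤ A0 * (1 + |s.im|) ^ (m * N) := by
        calc lam * (ω * wd (G i) T s).re ≤ lam * (‖ω‖ * (K * (2 ^ m * Q i s.im) ^ N)) := by
              apply mul_le_mul_of_nonneg_left _ hlam0.le
              exact (hle s).trans (mul_le_mul_of_nonneg_left (hwg i s T hT0 hT1 g1) (norm_nonneg _))
          _ ≤ lam * (‖ω‖ * (K * ((2 ^ m * ((1 + |t0|) ^ m * Q0)) ^ N * (1 + |s.im|) ^ (m * N)))) := by
              gcongr
          _ = _ := by rw [hA0]; ring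
      have h1' : (1:ℝ) ≤ 1 + |s.im| := by linarith [abs_nonneg s.im]
      have h10 : A0 * (1 + |s.im|) ^ (m * N) ≤ A * (1 + |s.im|) ^ A := by
        apply mul_le_mul hA1 _ (by positivity) (hA00.trans hA1)
        exact Real.rpow_le_rpow_of_exponent_le h1' hA2
      linarith
    · intro z hz
      apply hbd z (by rw [hz]) (by rw [hz]; norm_num)
      have hze : z = ⟨1 / 2, z.im⟩ := by apply Complex.ext <;> simp [hz]
      have h3 := hos i z.im T hT0 hT1
      rw [← hze] at h3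
      refine h3.trans ?_
      have hq : 0 ≤ Q i z.im ^ b := by
        have := H.Q1 i z.im
        positivity
      apply mul_le_mul_of_nonneg_right _ hq
      linarith
    · intro z hz
      apply hbd z (by rw [hz]; norm_num) (by rw [hz])
      have hq : 0 ≤ Q i z.im ^ b := by
        have := H.Q1 i z.im
        positivity
      calc (ω * wd (G i) T z).re ≤ ‖ω‖ * ‖wd (G i) T z‖ := hle z
        _ ≤ ‖ω‖ * (W * Q i z.im ^ b) :=
          mul_le_mul_of_nonneg_left (hwr i z T hT0 hT1 (by rw [hz])) (norm_nonneg _)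
        _ = (‖ω‖ * W) * Q i z.im ^ b := by ring
        _ ≤ _ := by
          apply mul_le_mul_of_nonneg_right _ hq
          linarith
  rw [hFn, Real.exp_le_one_iff, ← ht0, sub_self, Real.cosh_zero, mul_one] at hfin
  have h1 : lam * (ω * wd (G i) T s0).re ≤ K0 := by
    have h2 : K0 * Real.cos (s0.re - 7 / 8) ≤ K0 * 1 :=
      mul_le_mul_of_nonneg_left (Real.cos_le_one _) hK00
    linarith
  have h2 : (ω * wd (G i) T s0).re ≤ K0 * Q0 ^ b := by
    rw [hlam, inv_mul_le_iff₀ hQb] at h1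
    linarith
  calc (ω * wd (G i) T s0).re ≤ K0 * Q0 ^ b := h2
    _ ≤ _ := by
      apply mul_le_mul_of_nonneg_right _ hQb.le
      linarith

/-- two-sided bounds for the function itself to the right of the critical line -/
theorem local_bound (H : AFam m L Q) {f G : ι → ℂ → ℂ} (hf : ∀ i, Continuous (f i))
    (hG : ∀ i s, HasDerivAt (G i) (f i s) s) {K N b K2 B : ℝ} (hK : 0 ≤ K) (hN : 0 ≤ N)
    (hb : 0 ≤ b) (hK2 : 0 ≤ K2) (hB : 0 ≤ B)
    (hgr : ∀ i (s : ℂ), 1 / 2 ≤ s.re → ‖f i s‖ ≤ K * Q i s.im ^ N)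
    (hr : ∀ i (s : ℂ), 5 / 4 ≤ s.re → ‖f i s‖ ≤ K2 * Q i s.im ^ b) {ω : ℂ} (hω : ω ≠ 0)
    (hos : ∀ i (t T : ℝ), 0 ≤ T → T ≤ 1 → (ω * wd (G i) T ⟨1 / 2, t⟩).re ≤ B * Q i t ^ b)
    {η : ℝ} (hη0 : 0 < η) (hη1 : η ≤ 1 / 8) :
    ∃ C : ℝ, 0 ≤ C ∧ ∀ i (s : ℂ), s.re = 1 / 2 + 2 * η → ‖f i s‖ ≤ C * Q i s.im ^ b := by
  obtain ⟨C1, hC1, hmain⟩ := upper_half H hf hG hK hN hb hK2 hB hgr hr ω hos
  have hωn : 0 < ‖ω‖ := norm_pos_iff.2 hω
  have hm := H.m0
  set D : ℝ := (2 ^ m) ^ b with hD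
  have hD0 : 0 < D := by positivity
  set C2 : ℝ := (2 * (C1 * D) + 2 * (‖ω‖ * (K2 * D))) / (η * ‖ω‖) with hC2
  have hC20 : 0 ≤ C2 := by positivity
  refine ⟨C2 + C2 / η, by positivity, fun i s hs => ?_⟩
  set t : ℝ := s.im with ht
  have hQ1 := H.Q1 i t
  have hQ0 : 0 < Q i t := by linarith
  have hQb : 0 < Q i t ^ b := by positivity
  set s1 : ℂ := ⟨5 / 4, t⟩ with hs1
  have hshift : ∀ u : ℝ, |u| ≤ 1 → Q i (t + u) ^ b ≤ D * Q i t ^ b := by
    intro u hu
    calc Q i (t + u) ^ b ≤ (2 ^ m * Q i t) ^ b :=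
          Real.rpow_le_rpow (by linarith [H.Q1 i (t + u)]) (Q_up' H i t u hu) hb
      _ = _ := by rw [Real.mul_rpow (by positivity) hQ0.le]
  have hbc : ∀ T : ℝ, 0 ≤ T → T ≤ 1 → ∀ z : ℂ, ‖z‖ ≤ 3 / 4 - η →
      ‖wd (G i) T (s1 + z)‖ ≤ C2 * Q i t ^ b := by
    intro T hT0 hT1 z hz
    set M : ℝ := C1 * D * Q i t ^ b with hM
    have hMpos : 0 < M := by positivity
    have h3 := Complex.borelCaratheodory (f := fun w => ω * wd (G i) T (s1 + w)) (M := M)
      (R := 3 / 4) (z := z) hMpos (by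
        intro w _
        apply DifferentiableAt.differentiableWithinAt
        apply DifferentiableAt.const_mul
        have hd1 : DifferentiableAt ℂ (wd (G i) T) (s1 + w) :=
          (wd_deriv (hG i) T (s1 + w)).differentiableAt
        exact DifferentiableAt.comp w hd1 (by fun_prop)) (by
        intro w hw
        rw [mem_ball_zero_iff] at hw
        have h4 := (abs_le.1 ((Complex.abs_re_le_norm w).trans hw.le)).1
        have h5 : |w.im| ≤ 1 := (Complex.abs_im_le_norm w).trans (by linarith)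
        have h6 := hmain i (s1 + w) T hT0 hT1 (by rw [Complex.add_re, hs1]; simp only; linarith)
        simp only [Set.mem_ofPred_eq]
        refine h6.trans ?_
        have e : (s1 + w).im = t + w.im := by rw [Complex.add_im, hs1]
        rw [e, hM, mul_assoc]
        exact mul_le_mul_of_nonneg_left (hshift _ h5) hC1.le) (by norm_num) (by
        rw [mem_ball_zero_iff]; linarith)
    simp only [add_zero] at h3
    rw [norm_mul, norm_mul] at h3
    have h4 : ‖wd (G i) T s1‖ ≤ (K2 * D) * Q i t ^ b := by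
      have h5 := wd_norm (hf i) (hG i) hT0 hT1 (s := s1) (M := K2 * (D * Q i t ^ b))
        (by positivity) (by
          intro v hv0 hv1
          refine (hr i _ (by rw [hs1]; simp)).trans ?_
          apply mul_le_mul_of_nonneg_left _ hK2
          have e : (s1 + v * I).im = t + v := by rw [hs1]; simp
          rw [e]
          exact hshift v (by rw [abs_of_nonneg hv0]; exact hv1))
      linarith
    have hz0 := norm_nonneg z
    have h5 : η ≤ 3 / 4 - ‖z‖ := by linarith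
    have h6 : 2 * M * ‖z‖ / (3 / 4 - ‖z‖) ≤ 2 * M / η := by
      rw [div_le_div_iff₀ (by linarith) hη0]
      nlinarith [mul_le_mul_of_nonneg_left h5 (by positivity : 0 ≤ 2 * M),
        mul_le_mul_of_nonneg_right (by linarith : ‖z‖ ≤ 1) (by positivity : 0 ≤ 2 * M * η)]
    have h7 : ‖ω‖ * ‖wd (G i) T s1‖ * (3 / 4 + ‖z‖) / (3 / 4 - ‖z‖) ≤
        2 * (‖ω‖ * ((K2 * D) * Q i t ^ b)) / η := by
      rw [div_le_div_iff₀ (by linarith) hη0]
      have h8 : ‖ω‖ * ‖wd (G i) T s1‖ ≤ ‖ω‖ * ((K2 * D) * Q i t ^ b) :=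
        mul_le_mul_of_nonneg_left h4 hωn.le
      have h9 : 0 ≤ ‖ω‖ * ((K2 * D) * Q i t ^ b) := by positivity
      have h10 : ‖ω‖ * ‖wd (G i) T s1‖ * (3 / 4 + ‖z‖) ≤ ‖ω‖ * ((K2 * D) * Q i t ^ b) * 2 := by
        apply mul_le_mul h8 (by linarith) (by linarith) h9
      nlinarith [mul_le_mul_of_nonneg_left h5 (by positivity : 0 ≤ 2 * (‖ω‖ * ((K2 * D) * Q i t ^ b)))]
    have h11 : ‖ω‖ * ‖wd (G i) T (s1 + z)‖ ≤ ‖ω‖ * (C2 * Q i t ^ b) := by
      calc ‖ω‖ * ‖wd (G i) T (s1 + z)‖ ≤ _ := h3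
        _ ≤ 2 * M / η + 2 * (‖ω‖ * ((K2 * D) * Q i t ^ b)) / η := add_le_add h6 h7
        _ = _ := by
          rw [hC2, hM]
          field_simp
    exact le_of_mul_le_mul_left h11 hωn
  have hz0 : s = s1 + (((-(3 / 4 - 2 * η) : ℝ)) : ℂ) := by
    apply Complex.ext
    · rw [Complex.add_re, hs1, Complex.ofReal_re, hs]; simp only; ring
    · rw [Complex.add_im, hs1, Complex.ofReal_im, add_zero]
  have hnz0 : ‖(((-(3 / 4 - 2 * η) : ℝ)) : ℂ)‖ = 3 / 4 - 2 * η := by
    rw [Complex.norm_real, Real.norm_eq_abs, abs_neg, abs_of_pos (by linarith)]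
  have hdiff : ∀ T : ℝ, 0 ≤ T → T ≤ 1 → ‖f i (s + T * I) - f i s‖ ≤ C2 / η * Q i t ^ b := by
    intro T hT0 hT1
    have h3 := Complex.norm_deriv_le_of_forall_mem_sphere_norm_le (f := wd (G i) T) (c := s)
      (R := η) (C := C2 * Q i t ^ b) hη0 (by
        apply Differentiable.diffContOnCl
        intro w
        exact (wd_deriv (hG i) T w).differentiableAt) (by
        intro w hw
        rw [mem_sphere_iff_norm] at hw
        have e : w = s1 + ((w - s) + (((-(3 / 4 - 2 * η) : ℝ)) : ℂ)) := by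
          rw [hz0]; ring
        rw [e]
        apply hbc T hT0 hT1
        calc ‖(w - s) + (((-(3 / 4 - 2 * η) : ℝ)) : ℂ)‖
            ≤ ‖w - s‖ + ‖(((-(3 / 4 - 2 * η) : ℝ)) : ℂ)‖ := norm_add_le _ _
          _ ≤ 3 / 4 - η := by rw [hw, hnz0]; linarith)
    rw [(wd_deriv (hG i) T s).deriv, norm_div, Complex.norm_I, div_one] at h3
    calc _ ≤ C2 * Q i t ^ b / η := h3
      _ = _ := by ring
  -- average over `T`
  have hw1 : ‖wd (G i) 1 s‖ ≤ C2 * Q i t ^ b := by
    have h3 := hbc 1 zero_le_one le_rfl _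
      (by rw [hnz0]; linarith : ‖(((-(3 / 4 - 2 * η) : ℝ)) : ℂ)‖ ≤ 3 / 4 - η)
    rwa [← hz0] at h3
  have hcont : Continuous fun v : ℝ => f i (s + v * I) := (hf i).comp (by fun_prop)
  have havg : f i s = wd (G i) 1 s - ∫ v in (0:ℝ)..1, (f i (s + v * I) - f i s) := by
    rw [intervalIntegral.integral_sub (hcont.intervalIntegrable _ _)
      (continuous_const.intervalIntegrable _ _), wd_eq (hf i) (hG i)]
    simp
  have hint : ‖∫ v in (0:ℝ)..1, (f i (s + v * I) - f i s)‖ ≤ C2 / η * Q i t ^ b := by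
    have h1 := intervalIntegral.norm_integral_le_of_norm_le_const (a := (0:ℝ)) (b := 1)
      (f := fun v : ℝ => f i (s + v * I) - f i s) (C := C2 / η * Q i t ^ b) (by
        intro v hv
        rw [uIoc_of_le zero_le_one] at hv
        exact hdiff v hv.1.le hv.2)
    simpa using h1
  rw [havg]
  refine (norm_sub_le _ _).trans ?_
  linarith

end Pool.Agent.H388GL
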