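import Mathlib
import Pool.Agent.H388GL.Step
import Pool.Agent.H855R2.SF.Main

/-!
One-sided bounds for short integrals of `P(L)`: equivalences (helper388).
-/

open Complex Filter Topology Set

namespace Pool.Agent.H388GL

open H855R2.SF

variable {ι : Type*} {m : ℝ} {L : ι → ℂ → ℂ} {Q : ι → ℝ → ℝ}

theorem primitive (H : AFam m L Q) (P : Polynomial ℂ) :
    ∃ G : ι → ℂ → ℂ, ∀ i s, HasDerivAt (G i) (P.eval (L i s)) s := by
  have h : ∀ i, ∃ g : ℂ → ℂ, ∀ s, HasDerivAt g (P.eval (L i s)) s := by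
    intro i
    have hd : Differentiable ℂ (fun s => P.eval (L i s)) := P.differentiable.comp (H.diff i)
    obtain ⟨g, hg⟩ := hd.isExactOn_univ
    exact ⟨g, fun s => hg s (mem_univ s)⟩
  choose G hG using h
  exact ⟨G, hG⟩

theorem sum_wd (G : ℂ → ℂ) (T : ℝ) (s : ℂ) {n : ℕ} (hn : 0 < n) :
    wd G T s = ∑ j ∈ Finset.range n, wd G (T / n) (s + ((j * (T / n) : ℝ) : ℂ) * I) := by
  have hn' : (n : ℝ) ≠ 0 := by exact_mod_cast hn.ne'
  have h := Finset.sum_range_sub (fun j : ℕ => G (s + ((j * (T / n) : ℝ) : ℂ) * I) / I) n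
  have e1 : ((n : ℝ) * (T / n) : ℝ) = T := by field_simp
  unfold wd
  rw [e1] at h
  have e2 : (G (s + T * I) - G s) / I = G (s + (T : ℂ) * I) / I -
      G (s + ((((0 : ℕ) : ℝ) * (T / n) : ℝ) : ℂ) * I) / I := by
    simp [sub_div]
  rw [e2, ← h]
  refine Finset.sum_congr rfl fun j _ => ?_
  rw [sub_div]
  congr 3
  push_cast
  ring

/-- from short windows to windows of length one -/
theorem widen (H : AFam m L Q) {G : ι → ℂ → ℂ} (ω : ℂ) {b : ℝ} (hb : 0 ≤ b) {w : ι → ℝ → ℝ}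
    (hw : ∀ ε : ℝ, 0 < ε → ∃ c : ℝ, 0 < c ∧ ∀ i t, c * Q i t ^ (-ε) ≤ w i t)
    (h : ∀ ε : ℝ, 0 < ε → ∃ B : ℝ, ∀ i (t T : ℝ), 0 ≤ T → T ≤ w i t →
      (ω * wd (G i) T ⟨1 / 2, t⟩).re ≤ B * Q i t ^ (b + ε)) (ε : ℝ) (hε : 0 < ε) :
    ∃ B : ℝ, 0 ≤ B ∧ ∀ i (t T : ℝ), 0 ≤ T → T ≤ 1 →
      (ω * wd (G i) T ⟨1 / 2, t⟩).re ≤ B * Q i t ^ (b + ε) := by
  obtain ⟨c, hc0, hc⟩ := hw (ε / 2) (by positivity)
  obtain ⟨B, hB⟩ := h (ε / 2) (by positivity)
  have hm := H.m0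
  set D : ℝ := (2:ℝ) ^ m with hD
  have hD1 : 1 ≤ D := Real.one_le_rpow (by norm_num) hm
  refine ⟨|B| * (1 / c + 1) * D ^ (b + ε), by positivity, ?_⟩
  intro i t T hT0 hT1
  have hQ1 := H.Q1 i t
  have hQ0 : 0 < Q i t := by linarith
  set q : ℝ := D * Q i t with hq
  have hq1 : 1 ≤ q := by nlinarith
  have hq0 : 0 < q := by linarith
  have hqc : 0 < q ^ (ε / 2) / c := by positivity
  set n : ℕ := ⌈q ^ (ε / 2) / c⌉₊ with hn
  have hn0 : 0 < n := Nat.ceil_pos.2 hqc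
  have hnR : (0:ℝ) < n := by exact_mod_cast hn0
  have hn1 : q ^ (ε / 2) / c ≤ n := Nat.le_ceil _
  have hqe1 : 1 ≤ q ^ (ε / 2) := Real.one_le_rpow hq1 (by positivity)
  have hn2 : (n : ℝ) ≤ (1 / c + 1) * q ^ (ε / 2) := by
    have h1 := (Nat.ceil_lt_add_one hqc.le).le
    calc (n : ℝ) ≤ q ^ (ε / 2) / c + 1 := h1
      _ = 1 / c * q ^ (ε / 2) + 1 := by ring
      _ ≤ _ := by linarith
  have hpiece : ∀ j ∈ Finset.range n,
      (ω * wd (G i) (T / n) (⟨1 / 2, t⟩ + ((j * (T / n) : ℝ) : ℂ) * I)).re ≤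
        |B| * q ^ (b + ε / 2) := by
    intro j hj
    have hj' : (j : ℝ) ≤ n := by exact_mod_cast (Finset.mem_range.1 hj).le
    set v : ℝ := j * (T / n) with hv
    have hv0 : 0 ≤ v := by positivity
    have hv1 : v ≤ 1 := by
      calc v ≤ n * (T / n) := mul_le_mul_of_nonneg_right hj' (by positivity)
        _ = T := by field_simp
        _ ≤ 1 := hT1
    have e : (⟨1 / 2, t⟩ : ℂ) + (v : ℂ) * I = ⟨1 / 2, t + v⟩ := by
      apply Complex.ext <;> simp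
    rw [e]
    have hQv : Q i (t + v) ≤ q := Q_up H i t v hv0 hv1
    have hQv1 := H.Q1 i (t + v)
    have hQv0 : 0 < Q i (t + v) := by linarith
    have hTn : T / n ≤ w i (t + v) := by
      refine le_trans ?_ (hc i (t + v))
      have h1 : q ^ (-(ε / 2)) ≤ Q i (t + v) ^ (-(ε / 2)) :=
        Real.rpow_le_rpow_of_nonpos hQv0 hQv (by linarith)
      refine le_trans ?_ (mul_le_mul_of_nonneg_left h1 hc0.le)
      rw [Real.rpow_neg hq0.le, div_le_iff₀ hnR]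
      rw [div_le_iff₀ hc0] at hn1
      have h2 : 0 < q ^ (ε / 2) := by positivity
      calc T ≤ 1 := hT1
        _ = q ^ (ε / 2) * (q ^ (ε / 2))⁻¹ := by field_simp
        _ ≤ (n * c) * (q ^ (ε / 2))⁻¹ := mul_le_mul_of_nonneg_right hn1 (by positivity)
        _ = _ := by ring
    refine (hB i (t + v) (T / n) (by positivity) hTn).trans ?_
    calc B * Q i (t + v) ^ (b + ε / 2) ≤ |B| * Q i (t + v) ^ (b + ε / 2) :=
          mul_le_mul_of_nonneg_right (le_abs_self B) (by positivity)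
      _ ≤ _ := by
        apply mul_le_mul_of_nonneg_left _ (abs_nonneg B)
        exact Real.rpow_le_rpow hQv0.le hQv (by positivity)
  rw [sum_wd (G i) T _ hn0, Finset.mul_sum, Complex.re_sum]
  refine (Finset.sum_le_sum hpiece).trans ?_
  rw [Finset.sum_const, Finset.card_range, nsmul_eq_mul]
  calc (n : ℝ) * (|B| * q ^ (b + ε / 2)) ≤ ((1 / c + 1) * q ^ (ε / 2)) * (|B| * q ^ (b + ε / 2)) :=
        mul_le_mul_of_nonneg_right hn2 (by positivity)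
    _ = |B| * (1 / c + 1) * (q ^ (ε / 2) * q ^ (b + ε / 2)) := by ring
    _ = |B| * (1 / c + 1) * q ^ (b + ε) := by
        rw [← Real.rpow_add hq0]
        congr 2
        ring
    _ = _ := by
        rw [hq, Real.mul_rpow (by positivity) hQ0.le]
        ring

theorem one_add_pow_le {x C q : ℝ} (hx : 0 ≤ x) (hC : 0 ≤ C) (hq : 1 ≤ q) (h : x ≤ C * q)
    (k : ℕ) : (1 + x) ^ k ≤ (1 + C) ^ k * q ^ k := by
  rw [← mul_pow]
  apply pow_le_pow_left₀ (by linarith)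
  nlinarith

/-- **main step**: one-sided bounds for short integrals give the order on the critical line -/
theorem ZO_of_one_sided (H : AFam m L Q) (P : Polynomial ℂ) (hP : 0 < P.natDegree)
    {G : ι → ℂ → ℂ} (hG : ∀ i s, HasDerivAt (G i) (P.eval (L i s)) s) {κ : ℝ} (hκ : 0 ≤ κ)
    {ω : ℂ} (hω : ω ≠ 0)
    (h : ∀ ε : ℝ, 0 < ε → ∃ B : ℝ, 0 ≤ B ∧ ∀ i (t T : ℝ), 0 ≤ T → T ≤ 1 →
      (ω * wd (G i) T ⟨1 / 2, t⟩).re ≤ B * Q i t ^ (P.natDegree * κ + ε)) : ZO L Q κ := by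
  intro ε hε
  set k := P.natDegree with hk
  have hk0 : (0:ℝ) < k := by exact_mod_cast hP
  have hk1 : (1:ℝ) ≤ k := by exact_mod_cast hP
  have hm := H.m0
  set b : ℝ := k * κ + ε / 2 with hb
  have hb0 : 0 < b := by positivity
  obtain ⟨B, hB0, hB⟩ := h (ε / 2) (by positivity)
  obtain ⟨C1, hC1, hgrow⟩ := half_growth H
  obtain ⟨c, hc0, hc⟩ := poly_upper P k le_rfl
  obtain ⟨c', hc'0, hc'⟩ := poly_lower P hP
  set δ : ℝ := min (1 / 4) (ε / (2 * k)) with hδ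
  have hδ0 : 0 < δ := lt_min (by norm_num) (by positivity)
  have hδ1 : δ ≤ 1 / 4 := min_le_left _ _
  have hδ2 : δ * k ≤ ε / 2 := by
    have h1 : δ ≤ ε / (2 * k) := min_le_right _ _
    rw [le_div_iff₀ (by positivity)] at h1
    linarith
  obtain ⟨B2, hB2⟩ := H.right δ hδ0
  set η : ℝ := min (1 / 8) (ε / 40) with hη
  have hη0 : 0 < η := lt_min (by norm_num) (by positivity)
  have hη1 : η ≤ 1 / 8 := min_le_left _ _
  have hη2 : η ≤ ε / 40 := min_le_right _ _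
  have hf : ∀ i, Continuous (fun s => P.eval (L i s)) :=
    fun i => (P.differentiable.comp (H.diff i)).continuous
  obtain ⟨C, hC0, hloc⟩ := local_bound H hf hG (K := c * (1 + C1) ^ k) (N := k) (b := b)
    (K2 := c * (1 + |B2|) ^ k) (B := B) (by positivity) hk0.le hb0.le (by positivity) hB0
    (by
      intro i s hs
      refine (hc _).trans ?_
      have h1 := one_add_pow_le (norm_nonneg (L i s)) (by linarith : 0 ≤ C1) (H.Q1 i s.im)
        (hgrow i s hs) k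
      rw [Real.rpow_natCast, mul_assoc]
      exact mul_le_mul_of_nonneg_left h1 hc0)
    (by
      intro i s hs
      refine (hc _).trans ?_
      have hQ1 := H.Q1 i s.im
      have hQ0 : 0 < Q i s.im := by linarith
      have h0 : ‖L i s‖ ≤ |B2| * Q i s.im ^ δ := by
        refine (hB2 i s (by linarith)).trans ?_
        exact mul_le_mul_of_nonneg_right (le_abs_self B2) (by positivity)
      have h1 := one_add_pow_le (norm_nonneg (L i s)) (abs_nonneg B2)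
        (Real.one_le_rpow hQ1 hδ0.le) h0 k
      have h2 : (Q i s.im ^ δ) ^ k ≤ Q i s.im ^ b := by
        rw [← Real.rpow_natCast, ← Real.rpow_mul hQ0.le]
        apply Real.rpow_le_rpow_of_exponent_le hQ1
        have : 0 ≤ (k:ℝ) * κ := by positivity
        linarith
      calc c * (1 + ‖L i s‖) ^ k ≤ c * ((1 + |B2|) ^ k * (Q i s.im ^ δ) ^ k) :=
            mul_le_mul_of_nonneg_left h1 hc0
        _ ≤ c * ((1 + |B2|) ^ k * Q i s.im ^ b) := by gcongr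
        _ = _ := by ring)
    hω hB hη0 hη1
  -- the function itself
  set eb : ℝ := b / k with heb
  have heb0 : 0 < eb := by positivity
  have heb1 : eb ≤ κ + ε / 2 := by
    rw [heb, div_le_iff₀ hk0, hb]
    nlinarith
  set A2 : ℝ := (c' * (1 + C)) ^ ((k:ℝ)⁻¹) with hA2
  have hA20 : 0 ≤ A2 := by positivity
  have hright : ∀ i (t : ℝ), ‖L i ⟨1 / 2 + 2 * η, t⟩‖ ≤ A2 * Q i t ^ eb := by
    intro i t
    have hQ1 := H.Q1 i t
    have hQ0 : 0 < Q i t := by linarith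
    have hQb : 1 ≤ Q i t ^ b := Real.one_le_rpow hQ1 hb0.le
    have h1 := hloc i ⟨1 / 2 + 2 * η, t⟩ rfl
    have h2 := hc' (L i ⟨1 / 2 + 2 * η, t⟩)
    simp only at h1
    have h3 : ‖L i ⟨1 / 2 + 2 * η, t⟩‖ ^ k ≤ (c' * (1 + C)) * Q i t ^ b := by
      calc _ ≤ c' * (1 + ‖P.eval (L i ⟨1 / 2 + 2 * η, t⟩)‖) := h2
        _ ≤ c' * (1 + C * Q i t ^ b) := by gcongr
        _ ≤ c' * ((1 + C) * Q i t ^ b) := by
          apply mul_le_mul_of_nonneg_left _ hc'0.le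
          nlinarith
        _ = _ := by ring
    have hn := norm_nonneg (L i ⟨1 / 2 + 2 * η, t⟩)
    calc ‖L i ⟨1 / 2 + 2 * η, t⟩‖ = (‖L i ⟨1 / 2 + 2 * η, t⟩‖ ^ k) ^ ((k:ℝ)⁻¹) := by
          rw [Real.pow_rpow_inv_natCast hn (by omega)]
      _ ≤ ((c' * (1 + C)) * Q i t ^ b) ^ ((k:ℝ)⁻¹) :=
          Real.rpow_le_rpow (by positivity) h3 (by positivity)
      _ = A2 * Q i t ^ eb := by
          rw [Real.mul_rpow (by positivity) (by positivity), ← Real.rpow_mul hQ0.le, heb]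
          rw [div_eq_mul_inv]
  obtain ⟨R, hR0, hR⟩ := H.refl
  have hleft : ∀ i (t : ℝ), ‖L i ⟨1 / 4, t⟩‖ ≤ (R * C1) * Q i t ^ ((5:ℝ) / 4) := by
    intro i t
    have hQ1 := H.Q1 i t
    have hQ0 : 0 < Q i t := by linarith
    have h1 := hR i (1 / 4) t (by norm_num) (by norm_num)
    have e1 : (1 / 2 - 1 / 4 : ℝ) = 1 / 4 := by norm_num
    have e2 : (1 / 2 + 1 / 4 : ℝ) = 3 / 4 := by norm_num
    rw [e1, e2] at h1
    have h2 := hgrow i ⟨3 / 4, t⟩ (by norm_num)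
    calc ‖L i ⟨1 / 4, t⟩‖ ≤ R * Q i t ^ ((1:ℝ) / 4) * ‖L i ⟨3 / 4, t⟩‖ := h1
      _ ≤ R * Q i t ^ ((1:ℝ) / 4) * (C1 * Q i t ^ (1:ℝ)) := by
          rw [Real.rpow_one]
          exact mul_le_mul_of_nonneg_left h2 (by positivity)
      _ = (R * C1) * (Q i t ^ ((1:ℝ) / 4) * Q i t ^ (1:ℝ)) := by ring
      _ = _ := by rw [← Real.rpow_add hQ0]; norm_num
  obtain ⟨C3, hC30, hC3⟩ := pl H (a := 1 / 4) (b := 1 / 2 + 2 * η) (ea := 5 / 4) (eb := eb)
    (Ca := R * C1) (Cb := A2) (by linarith) (by norm_num) (by linarith) (by norm_num) heb0.le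
    (by have : 0 ≤ C1 := by linarith
        positivity) hA20
  refine ⟨C3, fun i t => ?_⟩
  have h1 := hC3 i (hleft i) (hright i) ⟨1 / 2, t⟩ (by norm_num) (by simp only; linarith)
  refine h1.trans ?_
  apply mul_le_mul_of_nonneg_left _ hC30
  apply Real.rpow_le_rpow_of_exponent_le (H.Q1 i t)
  -- exponents
  set d : ℝ := 1 / 2 + 2 * η - 1 / 4 with hd
  have hd0 : 0 < d := by rw [hd]; linarith
  have hd1 : 1 / 4 ≤ d := by rw [hd]; linarith
  have e3 : (5:ℝ) / 4 + (eb - 5 / 4) / d * (1 / 2 - 1 / 4) = eb + (5 / 4 - eb) * (2 * η / d) := by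
    have : 2 * η = d - 1 / 4 := by rw [hd]; ring
    rw [this]
    field_simp
    ring
  rw [e3]
  have h4 : 2 * η / d ≤ 8 * η := by
    rw [div_le_iff₀ hd0]
    nlinarith
  have h5 : 0 ≤ 2 * η / d := by positivity
  have h6 : (5 / 4 - eb) * (2 * η / d) ≤ 5 / 4 * (8 * η) := by
    calc (5 / 4 - eb) * (2 * η / d) ≤ 5 / 4 * (2 * η / d) := by
          apply mul_le_mul_of_nonneg_right _ h5
          linarith
      _ ≤ _ := by linarith
  linarith

/-- the trivial direction -/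
theorem short_of_ZO (H : AFam m L Q) (P : Polynomial ℂ) (hP : 0 < P.natDegree) {κ : ℝ}
    (hκ : 0 ≤ κ) (hZ : ZO L Q κ) (ε : ℝ) (hε : 0 < ε) : ∃ B : ℝ, ∀ i (t T : ℝ), 0 ≤ T → T ≤ 1 →
      ‖∫ v in (0:ℝ)..T, P.eval (L i ⟨1 / 2, t + v⟩)‖ ≤ B * Q i t ^ (P.natDegree * κ + ε) := by
  set k := P.natDegree with hk
  have hk0 : (0:ℝ) < k := by exact_mod_cast hP
  obtain ⟨C, hC⟩ := hZ (ε / k) (by positivity)
  obtain ⟨c, hc0, hc⟩ := poly_upper P k le_rfl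
  have hm := H.m0
  refine ⟨c * (1 + |C|) ^ k * ((2:ℝ) ^ m) ^ (k * κ + ε), fun i t T hT0 hT1 => ?_⟩
  have hQ1 := H.Q1 i t
  have hQ0 : 0 < Q i t := by linarith
  have h1 := intervalIntegral.norm_integral_le_of_norm_le_const (a := (0:ℝ)) (b := T)
    (f := fun v : ℝ => P.eval (L i ⟨1 / 2, t + v⟩))
    (C := c * (1 + |C|) ^ k * (((2:ℝ) ^ m) ^ (k * κ + ε) * Q i t ^ (k * κ + ε))) (by
      intro v hv
      rw [uIoc_of_le hT0] at hv
      have hv0 := hv.1.le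
      have hv1 := hv.2.trans hT1
      have hQv1 := H.Q1 i (t + v)
      have hQv0 : 0 < Q i (t + v) := by linarith
      have h0 : ‖L i ⟨1 / 2, t + v⟩‖ ≤ |C| * Q i (t + v) ^ (κ + ε / k) := by
        refine (hC i (t + v)).trans ?_
        exact mul_le_mul_of_nonneg_right (le_abs_self C) (by positivity)
      have h2 := one_add_pow_le (norm_nonneg _) (abs_nonneg C)
        (Real.one_le_rpow hQv1 (by positivity : 0 ≤ κ + ε / k)) h0 k
      have h3 : (Q i (t + v) ^ (κ + ε / k)) ^ k = Q i (t + v) ^ (k * κ + ε) := by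
        rw [← Real.rpow_natCast, ← Real.rpow_mul hQv0.le]
        congr 1
        field_simp
      rw [h3] at h2
      have h4 : Q i (t + v) ^ (k * κ + ε) ≤ ((2:ℝ) ^ m) ^ (k * κ + ε) * Q i t ^ (k * κ + ε) := by
        rw [← Real.mul_rpow (by positivity) hQ0.le]
        exact Real.rpow_le_rpow hQv0.le (Q_up H i t v hv0 hv1) (by positivity)
      calc ‖P.eval (L i ⟨1 / 2, t + v⟩)‖ ≤ c * (1 + ‖L i ⟨1 / 2, t + v⟩‖) ^ k := hc _
        _ ≤ c * ((1 + |C|) ^ k * Q i (t + v) ^ (k * κ + ε)) := mul_le_mul_of_nonneg_left h2 hc0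
        _ ≤ c * ((1 + |C|) ^ k * (((2:ℝ) ^ m) ^ (k * κ + ε) * Q i t ^ (k * κ + ε))) := by gcongr
        _ = _ := by ring)
  rw [sub_zero, abs_of_nonneg hT0] at h1
  refine h1.trans ?_
  have h5 : 0 ≤ c * (1 + |C|) ^ k * (((2:ℝ) ^ m) ^ (k * κ + ε) * Q i t ^ (k * κ + ε)) := by
    positivity
  calc _ ≤ c * (1 + |C|) ^ k * (((2:ℝ) ^ m) ^ (k * κ + ε) * Q i t ^ (k * κ + ε)) * 1 :=
        mul_le_mul_of_nonneg_left hT1 h5
    _ = _ := by ring

theorem int_eq (H : AFam m L Q) (P : Polynomial ℂ) {G : ι → ℂ → ℂ}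
    (hG : ∀ i s, HasDerivAt (G i) (P.eval (L i s)) s) (i : ι) (t T : ℝ) :
    ∫ v in (0:ℝ)..T, P.eval (L i ⟨1 / 2, t + v⟩) = wd (G i) T ⟨1 / 2, t⟩ := by
  have hf : Continuous (fun s => P.eval (L i s)) :=
    (P.differentiable.comp (H.diff i)).continuous
  rw [← wd_eq hf (hG i)]
  congr 1
  funext v
  congr 2
  apply Complex.ext <;> simp

/-- **main theorem** for families -/
theorem main (H : AFam m L Q) (P : Polynomial ℂ) (hP : 0 < P.natDegree) {κ : ℝ} (hκ : 0 ≤ κ)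
    {ω : ℂ} (hω : ω ≠ 0) {w : ι → ℝ → ℝ} (hw1 : ∀ i t, w i t ≤ 1)
    (hw : ∀ ε : ℝ, 0 < ε → ∃ c : ℝ, 0 < c ∧ ∀ i t, c * Q i t ^ (-ε) ≤ w i t) :
    List.TFAE [ZO L Q κ,
      ∀ ε : ℝ, 0 < ε → ∃ B : ℝ, ∀ i (t T : ℝ), 0 ≤ T → T ≤ w i t →
        ‖∫ v in (0:ℝ)..T, P.eval (L i ⟨1 / 2, t + v⟩)‖ ≤ B * Q i t ^ (P.natDegree * κ + ε),
      ∀ ε : ℝ, 0 < ε → ∃ B : ℝ, ∀ i (t T : ℝ), 0 ≤ T → T ≤ w i t →
        (ω * ∫ v in (0:ℝ)..T, P.eval (L i ⟨1 / 2, t + v⟩)).re ≤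
          B * Q i t ^ (P.natDegree * κ + ε)] := by
  obtain ⟨G, hG⟩ := primitive H P
  tfae_have 1 → 2 := by
    intro hZ ε hε
    obtain ⟨B, hB⟩ := short_of_ZO H P hP hκ hZ ε hε
    exact ⟨B, fun i t T hT0 hT1 => hB i t T hT0 (hT1.trans (hw1 i t))⟩
  tfae_have 2 → 3 := by
    intro h ε hε
    obtain ⟨B, hB⟩ := h ε hε
    refine ⟨‖ω‖ * B, fun i t T hT0 hT1 => ?_⟩
    refine (Complex.re_le_norm _).trans ?_
    rw [norm_mul, mul_assoc]
    exact mul_le_mul_of_nonneg_left (hB i t T hT0 hT1) (norm_nonneg _)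
  tfae_have 3 → 1 := by
    intro h
    apply ZO_of_one_sided H P hP hG hκ hω
    apply widen H ω (by positivity) hw
    intro ε hε
    obtain ⟨B, hB⟩ := h ε hε
    refine ⟨B, fun i t T hT0 hT1 => ?_⟩
    rw [← int_eq H P hG]
    exact hB i t T hT0 hT1
  tfae_finish

end Pool.Agent.H388GL
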